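import Pool.Agent.Y296.CB.Main
import Pool.Agent.Y296.CB.Dens

/-!
Chamberland's real extension `f` of the `3x+1` map `T`: the critical points just below even integers.
If `T^k m ≤ 5 m` for all `k`, then every point of `[2m - 11/(10(4m+1)), 2m]`, in particular the critical
point near `2 m`, follows the `T`-orbit of `2 m` for all time. Together with the critical points near
odd integers this gives nine tenths of all critical points.

Idea: for a deviation `e > 0` below `n` put `t = π² (2n+1) e / 4` and `V = e / (1 + 4 t / 15)`. Then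
`V / n` does not increase along the orbit, even steps multiply `t` by about `(1 - t) / 4`, so that the
first step from an even integer leaves `t ≤ 1/16 + o(1)`, and as long as `t ≤ 2.8` an overshoot at an
even integer is caught by the trap interval above the next integer. The density of the `m` with
`T^k m ≤ 5 m` for all `k` is bounded below by Ville's inequality.
-/

set_option autoImplicit false

namespace Pool.Agent.Results.MP_a247fa_nt.CriticalPointsBelowEven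

open Filter Topology

/-- Chamberland's map. -/
noncomputable def f (x : ℝ) : ℝ := x + 1 / 4 - (2 * x + 1) / 4 * Real.cos (Real.pi * x)

/-- The `3x+1` map. -/
def T (n : ℕ) : ℕ := if n % 2 = 0 then n / 2 else (3 * n + 1) / 2

/-- `y` is a point of an attracting cycle of `f` contained in `(0,∞)`. -/
def AttractingPoint (y : ℝ) : Prop :=
  0 < y ∧ 0 < Function.minimalPeriod f y ∧ |deriv (f^[Function.minimalPeriod f y]) y| < 1

/-- The orbit of `x` converges to the cycle of `y`. -/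
def Attracts (y x : ℝ) : Prop :=
  ∃ j : ℕ, Tendsto (fun k : ℕ => f^[k * Function.minimalPeriod f y + j] x) atTop (𝓝 y)

/-- Up to time `K` the `f`-orbit of `x` is close to the `T`-orbit of `n`. -/
def FollowsUpTo (K n : ℕ) (x : ℝ) : Prop :=
  ∀ k ≤ K, |f^[k] x - (T^[k] n : ℕ)| ≤ 8 / (7 * (2 * ((T^[k] n : ℕ) : ℝ) + 1))

/-- The orbit of `x` converges to the cycle `{1, 2}`, or to the cycle `{a, f a}`, or lands on a point
of period two in `[1.02, 1.05]`. -/
def KnownFate (a x : ℝ) : Prop :=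
  Attracts 1 x ∨ Attracts a x ∨ ∃ K, f^[K] x ∈ Set.Icc (1.02 : ℝ) 1.05 ∧ f^[K + 2] x = f^[K] x

/-- The set of positive integers with the property `P` has natural density `d`. -/
def HasDensity (P : ℕ → Prop) (d : ℝ) : Prop :=
  Tendsto (fun N : ℕ => ({n : ℕ | 1 ≤ n ∧ n ≤ N ∧ P n}.ncard : ℝ) / N) atTop (𝓝 d)

theorem result :
    ∃ a : ℝ, a ∈ Set.Icc (1.19 : ℝ) 1.196 ∧ f (f a) = a ∧
      (∀ y, y = 1 ∨ y = 2 ∨ y = a ∨ y = f a → AttractingPoint y) ∧
      -- the critical points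
      (∀ n : ℕ, 1 ≤ n → ∃! c : ℝ, |c - n| < 1 / 2 ∧ deriv f c = 0) ∧
      (∀ m : ℕ, 1 ≤ m → ∀ c : ℝ, |c - (2 * m : ℕ)| < 1 / 2 → deriv f c = 0 →
        c ≤ (2 * m : ℕ) ∧ (2 * m : ℕ) - 11 / (10 * (4 * (m : ℝ) + 1)) ≤ c) ∧
      -- the criterion
      (∀ m : ℕ, 1 ≤ m → (∀ k, T^[k] m ≤ 5 * m) → ∀ x : ℝ, x ≤ (2 * m : ℕ) →
        (2 * m : ℕ) - 11 / (10 * (4 * (m : ℝ) + 1)) ≤ x →
        (∀ K, FollowsUpTo K (2 * m) x) ∧
        (∀ y, AttractingPoint y → Attracts y x → (y = 1 ∨ y = 2 ∨ y = a ∨ y = f a) ∨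
          ∃ n : ℕ, 3 ≤ n ∧ (∃ k, T^[k] m = n) ∧ T^[Function.minimalPeriod f y] n = n ∧
            (n : ℝ) ≤ y ∧ y ≤ n + 5 / (6 * (2 * (n : ℝ) + 1))) ∧
        ((∃ k, T^[k] m = 1) → KnownFate a x)) ∧
      -- relative density
      (∃ δ κ : ℝ, 0 < δ ∧ (δ = 1 ↔ ∀ n : ℕ, 1 ≤ n → ∃ k : ℕ, T^[k] n = 1) ∧
        HasDensity (fun n => ∃ k : ℕ, T^[k] n = 1) δ ∧ 9 / 10 ≤ κ ∧ κ ≤ 1 ∧
        ∃ G : ℕ → Prop, HasDensity G (κ * δ) ∧ ∀ n : ℕ, 1 ≤ n → G n →
          (∃ k : ℕ, T^[k] n = 1) ∧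
          ∀ c : ℝ, |c - n| < 1 / 2 → deriv f c = 0 → (∀ K, FollowsUpTo K n c) ∧ KnownFate a c) ∧
      -- unconditional lower density
      (∀ ε : ℝ, 0 < ε → ∃ y : ℕ, ∀ᶠ N : ℕ in atTop, (9 / 10 - ε) * N ≤
        ({n : ℕ | 1 ≤ n ∧ n ≤ N ∧ ∃ K : ℕ, T^[K] n ≤ y ∧
          ∀ c : ℝ, |c - n| < 1 / 2 → deriv f c = 0 → FollowsUpTo K n c}.ncard : ℝ)) := by
  obtain ⟨a, ha, hga⟩ := Pool.Agent.H934R2.Ch.exists_a2
  have conv : ∀ {m : ℕ} {x : ℝ}, (2 * m : ℕ) - 11 / (10 * (4 * (m : ℝ) + 1)) ≤ x →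
      (4 * (m : ℝ) + 1) * ((2 * m : ℕ) - x) ≤ 1.1 := by
    intro m x h
    have h1 : ((2 * m : ℕ) : ℝ) - x ≤ 11 / (10 * (4 * (m : ℝ) + 1)) := by linarith
    have h2 : (0 : ℝ) < 4 * (m : ℝ) + 1 := by positivity
    have h3 := mul_le_mul_of_nonneg_left h1 h2.le
    have h4 : (4 * (m : ℝ) + 1) * (11 / (10 * (4 * (m : ℝ) + 1))) = 1.1 := by
      field_simp; norm_num
    linarith
  refine ⟨a, ha, hga, fun y h => Pool.Agent.H934R2.Ch.known_attr ha hga h,
    fun n hn => Pool.Agent.Y296.CB.crit_unique hn, ?_, ?_, ?_, ?_⟩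
  · intro m hm c hc h
    obtain ⟨h1, h2⟩ := Pool.Agent.Y296.CB.crit_zone hm hc h
    refine ⟨h1, ?_⟩
    have h3 : (0 : ℝ) < 4 * (m : ℝ) + 1 := by positivity
    have h4 : ((2 * m : ℕ) : ℝ) - c ≤ 11 / (10 * (4 * (m : ℝ) + 1)) := by
      rw [le_div_iff₀ (by positivity)]
      nlinarith
    linarith
  · intro m hm hT x hx hz
    refine ⟨fun K k _ => Pool.Agent.Y296.CB.tube hm hT hx (conv hz) k,
      fun y hy hatt => Pool.Agent.Y296.CB.attr ha hga hm hT hx (conv hz) hy hatt,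
      fun h1 => Pool.Agent.Y296.CB.fate ha hga hm hT hx (conv hz) h1⟩
  · obtain ⟨δ, κ, h0, h1, h2, h3, h4, h5, h6⟩ := Pool.Agent.Y296.CB.DD.dens_good
    refine ⟨δ, κ, h0, h2, h3, h4, h5, _, h6, ?_⟩
    rintro n hn ⟨h7, h8⟩
    refine ⟨h7, fun c hc h => ?_⟩
    have := Pool.Agent.Y296.CB.good ha hga hn h7 h8 hc h
    exact ⟨fun K k _ => this.1 k, this.2⟩
  · intro ε hε
    obtain ⟨y, hy⟩ := Pool.Agent.Y296.CB.DD.dens_low hε
    refine ⟨2 * y, ?_⟩
    filter_upwards [hy] with N hN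
    refine hN.trans ?_
    refine Pool.Agent.H499R2.ND.cnt_mono N fun n hn _ h => ?_
    rcases h with ⟨h1, K, hK⟩ | ⟨h1, K, hK, hK2⟩
    · refine ⟨K, ?_, fun c hc h k hk => ?_⟩
      · have : T^[K] n ≤ y := hK
        omega
      · exact Pool.Agent.Y296.CB.good_fin (K := K) hn (Or.inl h1) hc h k (by omega)
    · refine ⟨K + 1, ?_, fun c hc h k hk => ?_⟩
      · have e1 : T n = n / 2 := by
          unfold T; rw [if_pos h1]
        rw [Function.iterate_succ_apply, e1]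
        have : T^[K] (n / 2) ≤ y := hK
        omega
      · exact Pool.Agent.Y296.CB.good_fin (K := K) hn (Or.inr hK2) hc h k hk

end Pool.Agent.Results.MP_a247fa_nt.CriticalPointsBelowEven
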