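import Pool.Agent.Results.MP_a247fa_nt.AlmostBoundedCriticalOrbits
import Pool.Agent.Y854.GM.Ae

/-!
# The critical orbits of Chamberland's map which start in short windows around arbitrary sequences

Let `v` be ANY sequence of reals `≥ 1`. For almost every `α > 0`, for all but finitely many `n`, for ALL positive integers
`j` with `|j - α v_n| ≤ L_n` the interval `J j`, which for odd `j` contains the critical point of `f` in `(j, j + 1/2)`,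
is carried by an iterate of `f` into some `J m` with `m ≤ y_n`, as soon as `∑ L_n y_n ^ (-1/20) < ∞`; for example
`L_n = 1` and `y_n = (n + 1) ^ 21`, independently of the growth of `v`.
-/

set_option autoImplicit false

namespace Pool.Agent.Results.MP_a247fa_nt.CriticalWindows

open MeasureTheory Pool.Agent.H934R2.Ch

/-- The interval `J n = [n, n + 5/(6(2n+1))]`. -/
def J (n : ℕ) : Set ℝ := Set.Icc (n : ℝ) (n + 5 / (6 * (2 * (n : ℝ) + 1)))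

/-- **Theorem.** Let `v_n ≥ 1`, `y_n ≥ 1` and `0 ≤ L_n ≤ v_n` be sequences with `∑ L_n y_n ^ (-1/20) < ∞`. There is a set
`N` of measure zero such that for each `α > 0` outside `N` and all but finitely many `n`, for EVERY positive integer `j`
with `|j - α v_n| ≤ L_n`: (1) an iterate of `f` carries the interval `J j` into `J m` for some `1 ≤ m ≤ y_n`; (2) if `j` is
odd then there is exactly one critical point of `f` in `(j, j + 1/2)`, some iterate of it is at most `y_n + 5/18`, and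
(3) every attracting periodic point which attracts it attracts a point of `J m` for some `1 ≤ m ≤ y_n`. -/
theorem result (v y L : ℕ → ℝ) (hv : ∀ n, 1 ≤ v n) (hy : ∀ n, 1 ≤ y n) (hL : ∀ n, 0 ≤ L n ∧ L n ≤ v n)
    (hsum : Summable (fun n => L n * (y n) ^ (-(1 / 20) : ℝ))) :
    ∃ N : Set ℝ, volume N = 0 ∧ ∀ α : ℝ, 0 < α → α ∉ N → ∃ n₀ : ℕ, ∀ n : ℕ, n₀ ≤ n →
      ∀ j : ℕ, 1 ≤ j → |(j : ℝ) - α * v n| ≤ L n →
        (∃ m k : ℕ, 1 ≤ m ∧ (m : ℝ) ≤ y n ∧ ∀ x ∈ J j, f^[k] x ∈ J m) ∧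
        (j % 2 = 1 → ∃! x : ℝ, (j : ℝ) < x ∧ x < j + 1 / 2 ∧ deriv f x = 0) ∧
        (j % 2 = 1 → ∀ x : ℝ, (j : ℝ) < x → x < j + 1 / 2 → deriv f x = 0 →
          (∃ k : ℕ, f^[k] x ≤ y n + 5 / 18) ∧
          ∀ z : ℝ, AttrPt z → Attracts z x → ∃ m : ℕ, 1 ≤ m ∧ (m : ℝ) ≤ y n ∧ ∃ w ∈ J m, Attracts z w) := by
  obtain ⟨a, _, _, _, hex, _, ⟨C, hC, hcount⟩, _⟩ := AlmostBoundedCriticalOrbits.result
  set S : ℕ → Set ℕ := fun n => {j : ℕ | 1 ≤ j ∧ ((¬ ∃ m k : ℕ, 1 ≤ m ∧ (m : ℝ) ≤ y n ∧ ∀ x ∈ J j, f^[k] x ∈ J m) ∨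
    (j % 2 = 1 ∧ ∃ x : ℝ, (j : ℝ) < x ∧ x < j + 1 / 2 ∧ deriv f x = 0 ∧ ∀ k : ℕ, y n + 5 / 18 < f^[k] x) ∨
    (j % 2 = 1 ∧ ∃ x : ℝ, (j : ℝ) < x ∧ x < j + 1 / 2 ∧ deriv f x = 0 ∧ ∃ z : ℝ, AttrPt z ∧ Attracts z x ∧
      ∀ m : ℕ, 1 ≤ m → (m : ℝ) ≤ y n → ∀ w ∈ J m, ¬ Attracts z w))} with hS
  have key : ∀ n, ∀ X : ℝ, 1 ≤ X → {x | x ∈ S n ∧ ((x : ℕ) : ℝ) ≤ X}.Finite ∧
      ({x | x ∈ S n ∧ ((x : ℕ) : ℝ) ≤ X}.ncard : ℝ) ≤ (3 * C * (y n) ^ (-(1 / 20) : ℝ)) * X := by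
    intro n X hX
    have hb : ∀ P : Set ℕ, (∀ x ∈ P, (x : ℝ) ≤ X) → P.Finite := by
      intro P hP
      refine (Set.finite_Iic ⌊X⌋₊).subset ?_
      intro k hk
      exact Nat.le_floor (hP k hk)
    obtain ⟨h1, h2, h3, -⟩ := hcount X (y n) hX (hy n)
    set A1 : Set ℕ := {n' : ℕ | 1 ≤ n' ∧ (n' : ℝ) ≤ X ∧
            ¬ ∃ m k : ℕ, 1 ≤ m ∧ (m : ℝ) ≤ y n ∧ ∀ x ∈ AlmostBoundedCriticalOrbits.J n',
              f^[k] x ∈ AlmostBoundedCriticalOrbits.J m} with hA1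
    set A2 : Set ℕ := {n' : ℕ | n' % 2 = 1 ∧ (n' : ℝ) ≤ X ∧
            ∃ x : ℝ, (n' : ℝ) < x ∧ x < n' + 1 / 2 ∧ deriv f x = 0 ∧
              ∀ k : ℕ, y n + 5 / 18 < f^[k] x} with hA2
    set A3 : Set ℕ := {n' : ℕ | n' % 2 = 1 ∧ (n' : ℝ) ≤ X ∧
            ∃ x : ℝ, (n' : ℝ) < x ∧ x < n' + 1 / 2 ∧ deriv f x = 0 ∧
              ∃ z : ℝ, AttrPt z ∧ Attracts z x ∧
                ∀ m : ℕ, 1 ≤ m → (m : ℝ) ≤ y n → ∀ w ∈ AlmostBoundedCriticalOrbits.J m, ¬ Attracts z w} with hA3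
    have hf1 : A1.Finite := hb A1 (fun x hx => hx.2.1)
    have hf2 : A2.Finite := hb A2 (fun x hx => hx.2.1)
    have hf3 : A3.Finite := hb A3 (fun x hx => hx.2.1)
    refine ⟨hb _ (fun x hx => hx.2), ?_⟩
    have hsub : {x | x ∈ S n ∧ ((x : ℕ) : ℝ) ≤ X} ⊆ (A1 ∪ A2) ∪ A3 := by
      rintro j ⟨⟨hj1, hj | hj | hj⟩, hjX⟩
      · exact Or.inl (Or.inl ⟨hj1, hjX, hj⟩)
      · exact Or.inl (Or.inr ⟨hj.1, hjX, hj.2⟩)
      · exact Or.inr ⟨hj.1, hjX, hj.2⟩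
    have h4 : {x | x ∈ S n ∧ ((x : ℕ) : ℝ) ≤ X}.ncard ≤ A1.ncard + A2.ncard + A3.ncard :=
      (Set.ncard_le_ncard hsub ((hf1.union hf2).union hf3)).trans
        ((Set.ncard_union_le _ _).trans (Nat.add_le_add_right (Set.ncard_union_le _ _) _))
    have h5 : ({x | x ∈ S n ∧ ((x : ℕ) : ℝ) ≤ X}.ncard : ℝ) ≤
        C * X / (y n) ^ (1 / 20 : ℝ) + C * X / (y n) ^ (1 / 20 : ℝ) + C * X / (y n) ^ (1 / 20 : ℝ) := by
      refine le_trans ?_ (add_le_add (add_le_add h1 h2) h3)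
      exact_mod_cast h4
    refine h5.trans (le_of_eq ?_)
    rw [Real.rpow_neg (by linarith [hy n])]
    field_simp
    ring
  have hsum2 : Summable (fun n => (3 * C * (y n) ^ (-(1 / 20) : ℝ)) * L n) := by
    have h1 : (fun n => (3 * C * (y n) ^ (-(1 / 20) : ℝ)) * L n) =
        fun n => (3 * C) * (L n * (y n) ^ (-(1 / 20) : ℝ)) := by
      funext n
      ring
    rw [h1]
    exact hsum.mul_left _
  obtain ⟨N, hN, hN2⟩ := Pool.Agent.Y854.GM.ae_windows S (fun x : ℕ => (x : ℝ)) v L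
    (fun n => 3 * C * (y n) ^ (-(1 / 20) : ℝ)) hv (fun n => (hL n).1) (fun n => (hL n).2)
    (fun n => by
      have := hy n
      positivity) key hsum2
  refine ⟨N, hN, fun α hα hαN => ?_⟩
  obtain ⟨n₀, hn⟩ := hN2 α hα hαN
  refine ⟨n₀, fun n hn1 j hj hw => ⟨?_, fun hodd => hex j hodd, fun hodd x hx1 hx2 hx3 => ⟨?_, fun z hz hzx => ?_⟩⟩⟩
  · by_contra hcon
    exact absurd (hn n hn1 j ⟨hj, Or.inl hcon⟩) (not_lt.2 hw)
  · by_contra hcon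
    push Not at hcon
    exact absurd (hn n hn1 j ⟨hj, Or.inr (Or.inl ⟨hodd, x, hx1, hx2, hx3, hcon⟩)⟩) (not_lt.2 hw)
  · by_contra hcon
    push Not at hcon
    exact absurd (hn n hn1 j ⟨hj, Or.inr (Or.inr ⟨hodd, x, hx1, hx2, hx3, z, hz, hzx, hcon⟩)⟩) (not_lt.2 hw)

end Pool.Agent.Results.MP_a247fa_nt.CriticalWindows
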