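import Pool.Agent.Y627.CM.Exc

/-!
Chamberland's real extension `f` of the `3x+1` map `T`: an attracting cycle which is not one of the two
known cycles and does not lie just above a nontrivial cycle of `T` contracts only just below even
integers `n` whose `T`-orbit exceeds `2 n` within the period, and it follows this `T`-orbit until then.
-/

set_option autoImplicit false

namespace Pool.Agent.Results.MP_a247fa_nt.ExceptionalCycles

/-- Chamberland's map. -/
noncomputable def f (x : ℝ) : ℝ := x + 1 / 4 - (2 * x + 1) / 4 * Real.cos (Real.pi * x)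

/-- The `3x+1` map. -/
def T (n : ℕ) : ℕ := if n % 2 = 0 then n / 2 else (3 * n + 1) / 2

/-- `x` is a point of an attracting cycle of `f` contained in `(0,∞)`. -/
def AttractingPoint (x : ℝ) : Prop :=
  0 < x ∧ 0 < Function.minimalPeriod f x ∧ |deriv (f^[Function.minimalPeriod f x]) x| < 1

/-- The cycle of `x` lies just above a cycle of `T` other than `{1, 2}`. -/
def AboveIntegers (x : ℝ) : Prop :=
  ∃ n : ℕ, 3 ≤ n ∧ T^[Function.minimalPeriod f x] n = n ∧ ∀ k : ℕ, (T^[k] n : ℝ) ≤ f^[k] x ∧
    f^[k] x ≤ T^[k] n + 11 / (10 * (2 * (T^[k] n : ℝ) + 1))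

/-- `y` is just below an even integer `n ≥ 30`; for some `j < p` the `T`-orbit of `n` exceeds `2 n` for
the first time at time `j`, and up to this time the `f`-orbit of `y` stays just below it. -/
def Undershoots (p : ℕ) (y : ℝ) : Prop :=
  ∃ n j : ℕ, n % 2 = 0 ∧ 30 ≤ n ∧ y < n ∧ (n : ℝ) - y < 1 / (4 * n + 2) ∧
    j < p ∧ 2 * n < T^[j] n ∧
    (∀ i : ℕ, i < j → T^[i] n ≤ 2 * n ∧ f^[i] y < T^[i] n ∧
      (T^[i] n : ℝ) - f^[i] y < 1 / (2 * (T^[i] n : ℝ) + 1)) ∧
    f^[j] y < T^[j] n ∧ (T^[j] n : ℝ) - 1 / 4 < f^[j] y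

open H488R2.CH in
theorem f_eq : f = F := by
  funext x
  unfold f F
  norm_num

theorem T_eq : T = H488R2.CH.T := rfl

theorem bdd_of_reach {n B k : ℕ} (hB : 2 ≤ B) (h1 : T^[k] n = 1) (h2 : ∀ i < k, T^[i] n ≤ B) :
    ∀ j, T^[j] n ≤ B := by
  have key : ∀ i, T^[2*i] 1 = 1 ∧ T^[2*i+1] 1 = 2 := by
    intro i
    induction i with
    | zero => exact ⟨rfl, rfl⟩
    | succ i ih =>
      have e1 : 2 * (i+1) = 2*i+1+1 := by ring
      have h5 : T^[2*(i+1)] 1 = 1 := by
        rw [e1, Function.iterate_succ_apply', ih.2]; rfl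
      refine ⟨h5, ?_⟩
      rw [Function.iterate_succ_apply', h5]; rfl
  intro j
  by_cases hj : j < k
  · exact h2 j hj
  · obtain ⟨i, rfl⟩ : ∃ i, j = i + k := ⟨j - k, by omega⟩
    rw [Function.iterate_add_apply, h1]
    rcases Nat.mod_two_eq_zero_or_one i with h | h
    · have : i = 2 * (i/2) := by omega
      rw [this, (key _).1]; omega
    · have : i = 2 * (i/2) + 1 := by omega
      rw [this, (key _).2]; exact hB

/-- even integers below `54` other than `30` -/
theorem small_check : ∀ n ∈ Finset.range 54, n % 2 = 0 → 2 ≤ n → n ≠ 30 →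
    ∃ k ∈ Finset.range 80, T^[k] n = 1 ∧ ∀ i ∈ Finset.range k, T^[i] n ≤ 2 * n := by
  decide +kernel

theorem check30 : T^[13] 30 = 1 ∧ ∀ i ∈ Finset.range 13, T^[i] 30 ≤ 60 ∨ T^[i] 30 = 80 := by
  decide +kernel

theorem reach_check : ∀ n ∈ Finset.range 80, 1 ≤ n → ∃ k ∈ Finset.range 80, T^[k] n = 1 := by
  decide +kernel

/-- `T`-orbits which exceed `2 n` -/
theorem exceeds {n j : ℕ} (hn2 : n % 2 = 0) (hn : 2 ≤ n) (h : 2 * n < T^[j] n) :
    30 ≤ n ∧ 80 ≤ T^[j] n := by
  by_cases h54 : 54 ≤ n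
  · omega
  · by_cases h30 : n = 30
    · subst h30
      refine ⟨le_rfl, ?_⟩
      obtain ⟨h1, h2⟩ := check30
      by_cases hj : j < 13
      · rcases h2 j (Finset.mem_range.2 hj) with h3 | h3 <;> omega
      · exfalso
        obtain ⟨i, rfl⟩ : ∃ i, j = i + 13 := ⟨j - 13, by omega⟩
        rw [Function.iterate_add_apply, h1] at h
        have h4 := bdd_of_reach (n := 1) (B := 2) (k := 0) le_rfl rfl (by intro i hi; omega) i
        omega
    · exfalso
      obtain ⟨k, -, h1, h2⟩ := small_check n (Finset.mem_range.2 (by omega)) hn2 hn h30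
      have := bdd_of_reach (n := n) (B := 2 * n) (k := k) (by omega) h1
        (fun i hi => h2 i (Finset.mem_range.2 hi)) j
      omega

/-- small cycles of `T` -/
theorem small_cycle {n p : ℕ} (h1 : 1 ≤ n) (h2 : n ≤ 79) (hp : 0 < p) (h : T^[p] n = n) :
    n = 1 ∨ n = 2 := by
  obtain ⟨k, -, hk⟩ := reach_check n (Finset.mem_range.2 (by omega)) h1
  have hmul : ∀ i, T^[i * p] n = n := by
    intro i
    induction i with
    | zero => simp
    | succ i ih => rw [Nat.succ_mul, Function.iterate_add_apply, h, ih]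
  have h3 : T^[k * p] n = n := hmul k
  have hkp : k ≤ k * p := Nat.le_mul_of_pos_right k hp
  have h4 : T^[k * p - k] 1 = n := by
    rw [← hk, ← Function.iterate_add_apply]
    have : k * p - k + k = k * p := by omega
    rw [this, h3]
  have h5 := bdd_of_reach (n := 1) (B := 2) (k := 0) le_rfl rfl (by intro i hi; omega) (k * p - k)
  omega

open H488R2.CH in
theorem wid_le (m : ℕ) : wid m ≤ 11 / (10 * (2 * (m : ℝ) + 1)) := by
  have hm : (0:ℝ) ≤ m := Nat.cast_nonneg m
  unfold wid
  split_ifs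
  · rw [div_le_div_iff₀ (by positivity) (by positivity)]; nlinarith
  · rw [div_le_div_iff₀ (by positivity) (by positivity)]; nlinarith

open H488R2.CH in
/-- attracting cycles in the traps over a cycle of `T` containing `1` or `2` -/
theorem known {a x : ℝ} (ha : a ∈ J) (hfa : G a = a) {n : ℕ} (hn : n = 1 ∨ n = 2) (hx : x ∈ I n)
    {p : ℕ} (hp : 0 < p) (h : F^[p] x = x) (hm : |mul' p x| < 1) :
    x = 1 ∨ x = 2 ∨ x = a ∨ x = F a := by
  rcases hn with rfl | rfl
  · rcases attracting_I_one ha hfa hx hp h hm with h1 | h1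
    · left; exact h1
    · right; right; left; exact h1
  · have hx1 : F x ∈ I 1 := by
      have := trap_I (m := 2) (by norm_num) hx
      exact this
    have hp1 : F^[p] (F x) = F x := by
      have := iter_periodic h 1
      simpa using this
    have hm1 : |mul' p (F x)| < 1 := by rw [mul'_shift h]; exact hm
    have hxF : F^[p - 1] (F x) = x := by
      rw [← Function.iterate_succ_apply]
      have : (p - 1).succ = p := by omega
      rw [this, h]
    -- `p` is even
    have hT := (shadow_of_mem hp1 le_rfl hx1).1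
    have key : ∀ k, H488R2.CH.T^[2*k] 1 = 1 ∧ H488R2.CH.T^[2*k+1] 1 = 2 := by
      intro k
      induction k with
      | zero => exact ⟨rfl, by simp [H488R2.CH.T]⟩
      | succ k ih =>
        have e1 : 2 * (k+1) = 2*k+1+1 := by ring
        have h5 : H488R2.CH.T^[2*(k+1)] 1 = 1 := by
          rw [e1, Function.iterate_succ_apply', ih.2]; simp [H488R2.CH.T]
        refine ⟨h5, ?_⟩
        rw [Function.iterate_succ_apply', h5]; simp [H488R2.CH.T]
    have hev : p % 2 = 0 := by
      by_contra hodd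
      have e : p = 2 * (p/2) + 1 := by omega
      rw [e, (key (p/2)).2] at hT
      omega
    obtain ⟨q, hq⟩ : ∃ q, p - 1 = 2 * q + 1 := ⟨(p - 2) / 2, by omega⟩
    have hGG : ∀ z, G z = z → F^[2 * q] z = z := by
      intro z hz
      rw [F_iter_two_mul]
      exact Function.iterate_fixed hz q
    rcases attracting_I_one ha hfa hx1 hp hp1 hm1 with h1 | h1
    · right; left
      rw [h1, hq, Function.iterate_succ_apply'] at hxF
      have hG1 : G 1 = 1 := G_one_eq
      rw [hGG 1 hG1] at hxF
      have : F 1 = 2 := by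
        have := F_odd (m := 1) (by norm_num) 0
        simpa [H488R2.CH.T] using this
      linarith
    · right; right; right
      rw [h1, hq, Function.iterate_succ_apply', hGG a hfa] at hxF
      exact hxF.symm

open H488R2.CH in
theorem undershoots {p : ℕ} {y : ℝ} {n : ℕ} (hp : 0 < p) (hy : F^[p] y = y)
    (hn2 : n % 2 = 0) (hn : 2 ≤ n) (hyn : y < n) (hw : (2*(n:ℝ)+1) * (n - y) < 0.75)
    (hF : F y < H488R2.CH.T n) (hI : ∀ k m, 1 ≤ m → F^[k] y ∉ I m) :
    Undershoots p y ∧ ∃ j, 79 < F^[j] y := by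
  obtain ⟨h1, j, hj1, hj2, hj3, hj4, hj5, hj6⟩ := Y627.CM.exceptional hp hy hn2 hn hyn hw hF hI
  obtain ⟨h30, h80⟩ := exceeds hn2 hn hj3
  have h80' : (80:ℝ) ≤ ((H488R2.CH.T^[j] n : ℕ) : ℝ) := by exact_mod_cast h80
  refine ⟨⟨n, j, hn2, h30, hyn, ?_, hj2, hj3, ?_, ?_, ?_⟩, j, by linarith⟩
  · rw [lt_div_iff₀ (by positivity)]; linarith
  · intro i hi
    obtain ⟨a1, a2, a3⟩ := hj4 i hi
    rw [f_eq]
    refine ⟨a1, a2, ?_⟩
    rw [lt_div_iff₀ (by positivity)]
    rw [mul_comm]
    exact a3
  · rw [f_eq]; exact hj5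
  · rw [f_eq]
    have : (T^[j] n : ℝ) = ((H488R2.CH.T^[j] n : ℕ) : ℝ) := rfl
    linarith

/-- **Main theorem.** The number `a` is the point `1.1925...` of the second known attracting cycle. (1) The
two known cycles `{1, 2}`, `{a, f a}` are the only attracting cycles contained in `(0, 79]`. (2) Every
other attracting cycle in `(0,∞)` lies just above a cycle of `T` other than `{1, 2}`, or all its points
`y` with `|f' y| < 1` undershoot, and there is such a point. -/
theorem result :
    ∃ a : ℝ, 1.183 ≤ a ∧ a ≤ 1.2 ∧ f (f a) = a ∧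
      (∀ b : ℝ, 1.183 ≤ b → b ≤ 1.2 → f (f b) = b → b = a) ∧
      (∀ x : ℝ, AttractingPoint x → (∀ k : ℕ, f^[k] x ≤ 79) → x = 1 ∨ x = 2 ∨ x = a ∨ x = f a) ∧
      ∀ x : ℝ, AttractingPoint x → (x = 1 ∨ x = 2 ∨ x = a ∨ x = f a) ∨ AboveIntegers x ∨
        ((∃ k : ℕ, |deriv f (f^[k] x)| < 1) ∧
          ∀ k : ℕ, |deriv f (f^[k] x)| < 1 → Undershoots (Function.minimalPeriod f x) (f^[k] x)) := by
  obtain ⟨a, ha, hfa⟩ := H488R2.CH.exists_fixed_J
  have main : ∀ x : ℝ, AttractingPoint x → (x = 1 ∨ x = 2 ∨ x = a ∨ x = f a) ∨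
      (AboveIntegers x ∧ ∃ k : ℕ, 79 < f^[k] x) ∨
        ((∃ k : ℕ, |deriv f (f^[k] x)| < 1) ∧
          ∀ k : ℕ, |deriv f (f^[k] x)| < 1 → Undershoots (Function.minimalPeriod f x) (f^[k] x) ∧
            ∃ j : ℕ, 79 < f^[j] (f^[k] x)) := by
    intro x hx
    obtain ⟨h0, hp, hm⟩ := hx
    rw [f_eq] at hp hm
    rw [H488R2.CH.deriv_iter] at hm
    have hxp : H488R2.CH.F^[Function.minimalPeriod H488R2.CH.F x] x = x :=
      Function.iterate_minimalPeriod
    set p := Function.minimalPeriod H488R2.CH.F x with hpdef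
    have hder : ∀ y, deriv f y = H488R2.CH.F' y := by
      intro y; rw [f_eq]; exact (H488R2.CH.hasDerivAt_F y).deriv
    by_cases hI : ∃ k m, 1 ≤ m ∧ H488R2.CH.F^[k] x ∈ H488R2.CH.I m
    · rcases H488R2.CH.dichotomy h0 hp hxp with ⟨n, hn, hT, hS⟩ | hE
      · by_cases hn3 : n = 1 ∨ n = 2
        · left
          have := known ha hfa hn3 (by simpa using (hS 0).2) hp hxp hm
          rw [f_eq]; exact this
        · right; left
          refine ⟨⟨n, by omega, ?_, ?_⟩, ?_⟩
          · rw [f_eq]; exact hT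
          · intro k
            obtain ⟨-, b1, b2⟩ := hS k
            rw [f_eq]
            refine ⟨b1, ?_⟩
            have := wid_le (H488R2.CH.T^[k] n)
            have e : (T^[k] n : ℝ) = ((H488R2.CH.T^[k] n : ℕ) : ℝ) := rfl
            rw [e]
            linarith
          · refine ⟨0, ?_⟩
            have hn80 : 80 ≤ n := by
              by_contra hlt
              exact hn3 (small_cycle hn (by omega) hp hT)
            have b1 := (hS 0).2.1
            have b2 : (80:ℝ) ≤ n := by exact_mod_cast hn80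
            simp only [Function.iterate_zero, id] at b1 ⊢
            linarith
      · exfalso
        obtain ⟨i, hi, hi2⟩ := H488R2.CH.exists_small hm
        -- the orbit enters a trap, so it shadows an integer cycle
        obtain ⟨k, m, hm1, hk⟩ := hI
        obtain ⟨n', a1, a2, a3, a4, a5⟩ := hE i hi2
        -- `F^[i] x` is an iterate of `F^[k] x`
        have hmul : ∀ j, H488R2.CH.F^[j * p] x = x := by
          intro j
          induction j with
          | zero => simp
          | succ j ih => rw [Nat.succ_mul, Function.iterate_add_apply, hxp, ih]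
        have hkp : k ≤ k * p := Nat.le_mul_of_pos_right k hp
        have h2 : H488R2.CH.F^[(k*p - k) + i] (H488R2.CH.F^[k] x) = H488R2.CH.F^[i] x := by
          rw [← Function.iterate_add_apply]
          have : k * p - k + i + k = i + k * p := by omega
          rw [this, Function.iterate_add_apply, hmul]
        have h3 := H488R2.CH.trap_iter hm1 hk ((k*p - k) + i)
        rw [h2] at h3
        obtain ⟨c1, c2, c3⟩ := h3
        have hwl := H488R2.CH.wid_lt_half c1
        have hn'' : (2:ℝ) ≤ n' := by exact_mod_cast a2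
        have hlt : (n':ℝ) - H488R2.CH.F^[i] x < 0.15 := by nlinarith
        have d1 : ((H488R2.CH.T^[(k*p - k) + i] m : ℕ) : ℝ) < n' := by linarith
        have d2 : (n':ℝ) < ((H488R2.CH.T^[(k*p - k) + i] m : ℕ) : ℝ) + 1 := by linarith
        have d3 : H488R2.CH.T^[(k*p - k) + i] m < n' := by exact_mod_cast d1
        have d4 : n' < H488R2.CH.T^[(k*p - k) + i] m + 1 := by exact_mod_cast d2
        omega
    · right; right
      push Not at hI
      refine ⟨?_, ?_⟩
      · obtain ⟨i, -, hi2⟩ := H488R2.CH.exists_small hm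
        exact ⟨i, by rw [hder, f_eq]; exact hi2⟩
      · intro k hk
        rw [hder, f_eq] at hk
        rcases H488R2.CH.local_dichotomy (H488R2.CH.iter_pos h0 k) hp (H488R2.CH.iter_periodic hxp k) hk
          with ⟨n, hn, hmem⟩ | ⟨n, b1, b2, b3, b4, b5⟩
        · exact absurd hmem (hI k n hn)
        · have := undershoots hp (H488R2.CH.iter_periodic hxp k) b1 b2 b3 b4 b5 (by
            intro j m hm1
            rw [← Function.iterate_add_apply]
            exact hI (j + k) m hm1)
          rw [f_eq]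
          exact this
  refine ⟨a, ha.1, ha.2, ?_, ?_, ?_, ?_⟩
  · rw [f_eq]; exact hfa
  · intro b hb1 hb2 hb
    rw [f_eq] at hb
    exact H488R2.CH.periodic_J ha hfa ⟨hb1, hb2⟩ (q := 1) (by norm_num) hb
  · intro x hx hb
    rcases main x hx with h | ⟨-, k, hk⟩ | ⟨⟨k, hk⟩, h⟩
    · exact h
    · exfalso; linarith [hb k]
    · exfalso
      obtain ⟨-, j, hj⟩ := h k hk
      rw [← Function.iterate_add_apply] at hj
      linarith [hb (j + k)]
  · intro x hx
    rcases main x hx with h | ⟨h, -⟩ | ⟨h1, h⟩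
    · exact Or.inl h
    · exact Or.inr (Or.inl h)
    · exact Or.inr (Or.inr ⟨h1, fun k hk => (h k hk).1⟩)

end Pool.Agent.Results.MP_a247fa_nt.ExceptionalCycles
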